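import Pool.Agent.H251.PQ.Rankin
import Pool.Graph.R_pool_sql_team_seeded_63374d34.N538.PQ.VALS
import Pool.Graph.R_pool_sql_team_seeded_63374d34.N538.PQ.WIN
import Pool.Graph.R_pool_sql_team_seeded_63374d34.N538.PQ.MAINB
import Pool.Graph.R_pool_sql_team_seeded_63374d34.N538.PQ.FINAL
import Pool.Graph.R_pool_sql_team_seeded_63374d34.N538.PQ.BLOCK
import Pool.Graph.R_pool_sql_team_seeded_63374d34.N538.PQ.COLL
import Pool.Graph.R_pool_sql_team_seeded_63374d34.N538.PQ.IND
import Pool.Graph.R_pool_sql_team_seeded_63374d34.N538.PQ.LOC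
import Pool.Graph.R_pool_sql_team_seeded_63374d34.N538.PQ.NTH
import Pool.Graph.R_pool_sql_team_seeded_63374d34.N538.PQ.PRIMES

/-!
# The question for sparse random sets of odd numbers

The question asks, for every `n ≥ 32`, for an integer `k`, `1 ≤ k < n - 2`, such that `q`, `p_q - q - 1`
and `p_q - q + 1` are primes, `q = φ(k) + φ(n - k) / 2 + 1`. Here the primes are replaced by a random set
of odd numbers with an arbitrary density: the events that `m` belongs to the set are independent, and
their probabilities `P m` are arbitrary with `(log m) ^ (-κ) ≤ P m ≤ 1 / 2` for large odd `m`, where `κ`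
may be arbitrarily large and `P` need not be regular. Almost surely every large `n` has at least
`exp ((log n) ^ (1 / 6))` admissible `k`.

The proof is the one of the project `N538.PQ` of the library (helper538, helper703, helper907 of that run),
whose part `S_RANKIN` was missing; it is proved in `Pool/Agent/H251/PQ/Rankin.lean`.
-/

set_option autoImplicit false

namespace Pool.Agent.Results.MP_61a569_nt.SparseRandomModels

open MeasureTheory ProbabilityTheory Filter

/-- `q n k = φ(k) + φ(n - k) / 2 + 1`. -/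
def q (n k : ℕ) : ℕ := Nat.totient k + Nat.totient (n - k) / 2 + 1

/-- The element number `j` of `S`, `j ≥ 1` (for the set of the primes it is `p_j`). -/
noncomputable def nthElement (S : Set ℕ) (j : ℕ) : ℕ := Nat.nth (· ∈ S) (j - 1)

/-- `k` is admissible for `n` with respect to the set `S`: `1 ≤ k < n - 2`, and `q`, `s_q - q - 1` and
`s_q - q + 1` are elements of `S`, where `q = q n k` and `s_q` is the element number `q` of `S`. For the
set `S` of the primes this is the definition of the question. -/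
def Admissible (S : Set ℕ) (n k : ℕ) : Prop :=
  1 ≤ k ∧ k + 2 < n ∧ q n k ∈ S ∧ nthElement S (q n k) - q n k - 1 ∈ S ∧
    nthElement S (q n k) - q n k + 1 ∈ S

/-- **Random sets of arbitrary density `≥ (log m) ^ (-κ)`.** -/
theorem result (κ : ℝ) (hκ : 0 < κ) (m₀ : ℕ) (Ω : Type) [MeasurableSpace Ω] (μ : Measure Ω)
    [IsProbabilityMeasure μ] (A : ℕ → Set Ω) (hmeas : ∀ m, MeasurableSet (A m))
    (hindep : iIndepSet A μ) (heven : ∀ m, Even m → m ≠ 2 → A m = ∅)
    (hlow : ∀ m, m₀ ≤ m → Odd m → Real.log m ^ (-κ) ≤ μ.real (A m))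
    (hhigh : ∀ m, m₀ ≤ m → Odd m → μ.real (A m) ≤ 1 / 2) :
    ∀ᵐ ω ∂μ, ∀ᶠ n : ℕ in atTop,
      Real.exp (Real.log n ^ ((1 : ℝ) / 6)) ≤
        (({k : ℕ | Admissible {m | ω ∈ A m} n k}.ncard : ℕ) : ℝ) := by
  have hM : Pool.Agent.N538.PQ.Model κ (max m₀ 2) μ A :=
    { meas := hmeas
      indep := hindep
      even := heven
      low := fun m hm => hlow m (le_trans (le_max_left _ _) hm)
      high := fun m hm => hhigh m (le_trans (le_max_left _ _) hm) }
  have h := Pool.Agent.N538.PQ.t_FINAL
    (Pool.Agent.N538.PQ.t_WIN (Pool.Agent.N538.PQ.t_VALS Pool.Agent.H251.PQ.t_RANKIN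
      Pool.Agent.N538.PQ.t_PRIMES Pool.Agent.N538.PQ.t_SQ Pool.Agent.N538.PQ.t_COLL
      Pool.Agent.N538.PQ.t_PAR))
    Pool.Agent.N538.PQ.t_BLOCK
    (Pool.Agent.N538.PQ.t_MAINB Pool.Agent.N538.PQ.t_IND Pool.Agent.N538.PQ.t_LOC
      Pool.Agent.N538.PQ.t_NTH Pool.Agent.N538.PQ.t_SEP)
    κ (max m₀ 2) hκ (le_max_right _ _) Ω μ A hM
  exact h

end Pool.Agent.Results.MP_61a569_nt.SparseRandomModels
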