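import Pool.Agent.H579.R.Dsp5R
import Pool.Agent.H579.R.Reg
import Pool.Graph.R_pool_sql_team_seeded_2aa45f1a.Q234.TQ

/-!
# The totient-sum primes `q`: `p_q - q - 1 + h_0` and `p_q - q + 1 + h_1` prime for almost all pairs of shifts in the
# residue classes of moduli up to the power `2 / 3 - ρ`

Q1 asks for every `n ≥ 32` for `k` such that `q = φ(k) + φ(n - k) / 2 + 1`, `p_q - q - 1` and `p_q - q + 1` are primes.
Let `Q n` be the set of the primes `q` which occur for `n`, and `N = p_{n + 1}` (so that `p_q ≤ N` for all `q ∈ Q n`). It is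
shown for EVERY large `n` and EVERY subset `V` of `Q n` that the number of the `q ∈ V` for which `p_q - q - 1 + h_0` and
`p_q - q + 1 + h_1` are both prime is

  `q_0 / φ(q_0) * q_1 / φ(q_1) * #{q ∈ V : (p_q - q - 1 + a_0, q_0) = 1, (p_q - q + 1 + a_1, q_1) = 1} / log ^ 2 N`

with an error of at most `η * q_0 / φ(q_0) * q_1 / φ(q_1) * (#V + N / log ^ A N) / log ^ 2 N`, for almost all pairs
`(h_0, h_1)` of shifts taken from arbitrary residue classes `h_i ≡ a_i (mod q_i)`, where the moduli `q_0`, `q_1` may be as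
large as `N ^ (2 / 3 - ρ)`; then there are only `N ^ (1 / 3 + ρ)` possible values for each shift. The moduli have to be
divisible by all primes `≤ w`, and the number of exceptional pairs is at most `C log log N / (η ^ 2 w)` times the number
of all pairs. For a positive proportion of the `n` the set `Q n` has at least `n / log ^ 14 n` elements (library).

The moduli have to be regular: not divisible by a member of a set `D` (depending on `n`) of at most `log ^ c N` integers,
the RADICALS of which are larger than any given power of `log N`. There is NO condition on moduli with a radical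
`≤ log ^ B N`, for instance on the powers `≤ N ^ (2 / 3 - ρ)` of the product of the primes up to `K log log N`. Proof:
`Pool.Agent.H579.G.Dsp1` to `Dsp5`, `Pool.Agent.H579.R` (mean squares over the characters for the difference between the
primes and the sieve model, along arbitrary sequences, and the mean square of the sieve model in classes; Postnikov's
formula and Vinogradov's method for the conductors with a small radical, `H567/PP`).
-/

set_option autoImplicit false

open Finset Filter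

namespace Pool.Agent.Results.MP_61a569_nt.TotientPrimesLargeModuli

/-- the radical of `d`: the product of the primes dividing `d` -/
def rad (d : ℕ) : ℕ := ∏ l ∈ d.primeFactors, l

/-- The `k`-th prime: `p 1 = 2`, `p 2 = 3`. -/
noncomputable def p (k : ℕ) : ℕ := Nat.nth Nat.Prime (k - 1)

/-- The primes `q = φ(k) + φ(n - k) / 2 + 1` with `1 ≤ k < n - 2`. -/
noncomputable def Q (n : ℕ) : Finset ℕ :=
  ((Ioo 0 (n - 2)).image (fun k => Nat.totient k + Nat.totient (n - k) / 2 + 1)).filter Nat.Prime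

open Classical in
/-- The `q` in `V` for which `p_q - q - 1 + h_0` and `p_q - q + 1 + h_1` are prime. -/
noncomputable def good (V : Finset ℕ) (h : Fin 2 → ℕ) : Finset ℕ :=
  V.filter (fun q => (p q - q - 1 + h 0).Prime ∧ (p q - q + 1 + h 1).Prime)

open Classical in
/-- The `q` in `V` for which `p_q - q - 1 + a_0` is prime to `m_0` and `p_q - q + 1 + a_1` is prime to `m_1`. -/
noncomputable def loc (V : Finset ℕ) (m a : Fin 2 → ℕ) : Finset ℕ :=
  V.filter (fun q => (p q - q - 1 + a 0).Coprime (m 0) ∧ (p q - q + 1 + a 1).Coprime (m 1))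

/-- `m_0 / φ(m_0) * m_1 / φ(m_1)` -/
noncomputable def dens (m : Fin 2 → ℕ) : ℝ := (m 0 : ℝ) / Nat.totient (m 0) * ((m 1 : ℝ) / Nat.totient (m 1))

open Classical in
/-- The pairs of shifts `1 ≤ h_i ≤ N`, `h_i ≡ a_i (mod m_i)`, for which the number of the `q ∈ V` with `p_q - q - 1 + h_0`
and `p_q - q + 1 + h_1` prime differs from `dens m * #loc / log ^ 2 N` by more than `η * dens m * Y / log ^ 2 N`. -/
noncomputable def exceptional (η Y : ℝ) (N : ℕ) (V : Finset ℕ) (m a : Fin 2 → ℕ) : Finset (Fin 2 → ℕ) :=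
  (Fintype.piFinset fun _ => Icc 1 N).filter (fun h => (∀ i, h i ≡ a i [MOD m i]) ∧
    η * dens m * (Y / Real.log N ^ 2) <
      |((good V h).card : ℝ) - dens m * ((loc V m a).card / Real.log N ^ 2)|)

/-- the two sequences -/
noncomputable def F : Fin 2 → ℕ → ℕ := ![fun q => p q - q - 1, fun q => p q - q + 1]

open Pool.Agent.H579.G in
theorem exc_eq (η Y : ℝ) (N : ℕ) (V : Finset ℕ) (m a : Fin 2 → ℕ) : excN η Y N V F m a = exceptional η Y N V m a := by
  classical
  have e1 : den m = dens m := by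
    unfold den dens
    rw [Fin.prod_univ_two]
  have e2 : ∀ h : Fin 2 → ℕ, prN V F h = good V h := by
    intro h
    unfold prN good
    refine filter_congr fun p _ => ?_
    rw [Fin.forall_fin_two]
    rfl
  have e3 : cpN V F m a = loc V m a := by
    unfold cpN loc
    refine filter_congr fun p _ => ?_
    rw [Fin.forall_fin_two]
    rfl
  unfold excN exceptional
  simp only [e1, e2, e3]

theorem nth_inj : Function.Injective (Nat.nth Nat.Prime) := Nat.nth_injective Nat.infinite_setOfPred_prime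

theorem p_mono {a b : ℕ} (h : a ≤ b) : p a ≤ p b :=
  (Nat.nth_strictMono Nat.infinite_setOfPred_prime).monotone (by omega)

theorem p_ge {q : ℕ} (hq : 1 ≤ q) : q + 1 ≤ p q := by
  have := Nat.add_two_le_nth_prime (q - 1)
  unfold p
  omega

theorem p_inj {a b : ℕ} (ha : 2 ≤ a) (hb : 2 ≤ b) (h : p a - a = p b - b) : a = b :=
  Pool.Agent.Q234.TQ.p_sub_inj ha hb h

theorem Q_le {n q : ℕ} (h : q ∈ Q n) : q.Prime ∧ q ≤ n + 1 := Pool.Agent.Q234.TQ.mem_Q_le h

/-- `p_q - q ≥ 2` for `q ≥ 5` -/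
theorem p_sub {q : ℕ} (hq : 5 ≤ q) : q + 2 ≤ p q := by
  have h1 := Pool.Agent.Q234.TQ.nth_add 1 (q - 2) le_rfl
  have h2 : Nat.nth Nat.Prime 1 = 3 := Nat.nth_prime_one_eq_three
  have h3 : 1 + (q - 2) = q - 1 := by omega
  rw [h2, h3] at h1
  unfold p
  omega

/-- **Every large `n`, every set of totient-sum primes, all regular moduli, all residue classes, almost all pairs of
shifts**; and the size of the set of the totient-sum primes. -/
theorem result : (∀ A : ℕ, ∃ C : ℝ, ∀ ρ : ℝ, 0 < ρ → ∃ c : ℕ, ∀ B : ℕ, ∃ n₀ : ℕ, ∀ n : ℕ, n₀ ≤ n →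
    ∃ D : Finset ℕ, (D.card : ℝ) ≤ Real.log (p (n + 1)) ^ c ∧ (∀ d ∈ D, Real.log (p (n + 1)) ^ B < (rad d : ℝ)) ∧
      ∀ m : Fin 2 → ℕ, (∀ i, 1 ≤ m i ∧ (m i : ℝ) ≤ (p (n + 1) : ℝ) ^ (2 / 3 - ρ) ∧
        ((rad (m i) : ℝ) ≤ Real.log (p (n + 1)) ^ B ∨ ∀ d ∈ D, ¬ d ∣ m i)) →
      ∀ w : ℕ, 1 ≤ w → (w : ℝ) ≤ Real.log (p (n + 1)) → (∀ l : ℕ, l.Prime → l ≤ w → ∀ i, l ∣ m i) →
      ∀ a : Fin 2 → ℕ, ∀ V ⊆ (Q n).filter (5 ≤ ·), ∀ η : ℝ, 0 < η → η ≤ 1 →
        ((exceptional η (V.card + p (n + 1) / Real.log (p (n + 1)) ^ A) (p (n + 1)) V m a).card : ℝ) ≤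
          C * Real.log (Real.log (p (n + 1))) / (η ^ 2 * w) *
            ((p (n + 1) : ℝ) / m 0 * ((p (n + 1) : ℝ) / m 1))) ∧
    (∃ c : ℝ, 0 < c ∧ ∀ᶠ x : ℕ in atTop,
      c * x ≤ (Set.ncard {n : ℕ | 32 ≤ n ∧ n ≤ x ∧ (n : ℝ) / Real.log n ^ 14 ≤ ((Q n).card : ℝ)} : ℝ)) := by
  classical
  refine ⟨?_, Pool.Agent.Q234.TQ.good_cardQ⟩
  intro A
  obtain ⟨C, hC, h1⟩ := Pool.Agent.H579.R.sparse_natR 2 A (by norm_num)
  refine ⟨C, fun ρ hρ => ?_⟩
  obtain ⟨c, h2⟩ := h1 ρ hρ
  refine ⟨c, fun B => ?_⟩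
  obtain ⟨N₀, h3⟩ := h2 B
  refine ⟨N₀ + 3, fun n hn => ?_⟩
  have hpn : n + 2 ≤ p (n + 1) := by
    have := p_ge (q := n + 1) (by omega)
    omega
  obtain ⟨D, hD1, hD2, hD3⟩ := h3 (p (n + 1)) (by omega)
  refine ⟨D, hD1, hD2, fun m hm w hw1 hwL hwm a V hV η hη0 hη1 => ?_⟩
  have hp3 : (3 : ℝ) ≤ p (n + 1) := by exact_mod_cast (by omega : 3 ≤ p (n + 1))
  have hL0 : 0 ≤ Real.log (p (n + 1)) := Real.log_nonneg (by linarith)
  have hVm : ∀ q ∈ V, 5 ≤ q ∧ q ≤ n + 1 := fun q hq => by
    have h4 := mem_filter.1 (hV hq)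
    exact ⟨h4.2, (Q_le h4.1).2⟩
  have h7 := hD3 m (fun i => ⟨(hm i).1, (hm i).2.1,
    Pool.Agent.H579.R.reg_of_rad (hm i).1 hD2 (hm i).2.2⟩) w hw1 hwL hwm a V F
    (by
      intro i q hq
      obtain ⟨k1, k2⟩ := hVm q hq
      have k3 := p_sub k1
      have k4 := p_mono k2
      fin_cases i
      · exact mem_Icc.2 ⟨by show 1 ≤ p q - q - 1; omega, by show p q - q - 1 ≤ p (n + 1); omega⟩
      · exact mem_Icc.2 ⟨by show 1 ≤ p q - q + 1; omega, by show p q - q + 1 ≤ p (n + 1); omega⟩)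
    (by
      intro i q hq q' hq' e
      obtain ⟨k1, k2⟩ := hVm q (mem_coe.1 hq)
      obtain ⟨k3, k4⟩ := hVm q' (mem_coe.1 hq')
      have k5 := p_sub k1
      have k6 := p_sub k3
      refine p_inj (by omega) (by omega) ?_
      fin_cases i
      · have e' : p q - q - 1 = p q' - q' - 1 := e
        omega
      · have e' : p q - q + 1 = p q' - q' + 1 := e
        omega)
    (V.card + p (n + 1) / Real.log (p (n + 1)) ^ A)
    (by
      have : (0 : ℝ) ≤ p (n + 1) / Real.log (p (n + 1)) ^ A := by positivity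
      linarith)
    (by
      have : (0 : ℝ) ≤ V.card := Nat.cast_nonneg _
      linarith)
    η hη0 hη1
  rw [exc_eq, Fin.prod_univ_two] at h7
  exact h7

end Pool.Agent.Results.MP_61a569_nt.TotientPrimesLargeModuli
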